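import Pool.Agent.Zk72.NS.Shp

/-!
# Module CLH: the highest path between two stable states
-/

set_option autoImplicit false

namespace Pool.Agent.Zk67.NS.CLH

open H974 Finset H342P H984P H984N H12S H389NS Pool.Agent.Zk36.TT Pool.Agent.W92.DP
open Pool.Agent.Zk72.NS

/-- a set of vertices which contains the wired cluster of `L` and is closed under the open edges of `G` -/
theorem clu_sub {D : Dm} {G L : Finset Edg} (h : ∀ f ∈ G, f ∈ L ∨ (src f ∉ D.clu L ∧ tgt f ∉ D.clu L)) :
    D.clu G ⊆ D.clu L := by
  intro v hv
  have hv' : Reach (D.cfg G) (0, 0) v := hv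
  induction hv' with
  | refl => exact Reach.refl _ _
  | tail _ hs ih =>
    have ih' := ih (by assumption)
    obtain ⟨f, hf, hst⟩ := hs
    have hfL : f ∈ D.cfg L := by
      rcases hf with hf | hf
      · rcases h f hf with h1 | h1
        · exact Or.inl h1
        · exfalso
          rcases hst with h2 | h2
          · exact h1.1 (by rw [h2.1]; exact ih')
          · exact h1.2 (by rw [h2.2]; exact ih')
      · exact Or.inr hf
    exact Reach.trans (show Reach (D.cfg L) (0, 0) _ from ih') (Adj.reach ⟨f, hfL, hst⟩)

theorem t_CLH (hE : S_EXC) : S_CLH := by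
  classical
  intro D U B s k t hD hU hB hs hS hkt ht hk hns
  set H := B ∪ U with hH
  set L := B \ U with hL
  have hHe : H ⊆ D.edges := Finset.union_subset hB hU
  have hLe : L ⊆ D.edges := Finset.sdiff_subset.trans hB
  have hLH : L ⊆ H := Finset.sdiff_subset.trans Finset.subset_union_left
  have hout : ∀ j, k < j → j ≤ t → (D.walk H j).1 ∉ D.clu L := by
    intro j h1 h2 h3
    exact hns j h1 h2 ⟨h3, (walk_clu hD hHe (h2.trans ht)).2⟩
  -- the edge `e`
  set e := ae (D.walk H k) with he
  have heH : e ∈ D.cfg H := by
    by_contra hc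
    apply hout (k + 1) (by omega) (by omega)
    rw [H984N.walk_succ, nxt_closed hc, p2_rt_fst]
    exact hk.1
  have hmv : D.walk H (k + 1) = mv (D.walk H k) := by
    rw [H984N.walk_succ, nxt_open heH]
  have hends : (src e = (D.walk H k).1 ∧ tgt e = (D.walk H (k + 1)).1) ∨
      (src e = (D.walk H (k + 1)).1 ∧ tgt e = (D.walk H k).1) := by
    rw [hmv]
    exact p2_ends _
  have heL : e ∉ D.cfg L := by
    intro hc
    apply hout (k + 1) (by omega) (by omega)
    exact Reach.trans (show Reach (D.cfg L) (0, 0) _ from hk.1) (Adj.reach ⟨e, hc, hends⟩)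
  have hew : e ∉ D.wir := fun h => heL (Or.inr h)
  have heL' : e ∉ L := fun h => heL (Or.inl (by exact_mod_cast h))
  have heH' : e ∈ H := by
    rcases heH with h | h
    · exact_mod_cast h
    · exact absurd h hew
  have heU : e ∈ U := by
    by_contra h
    rcases Finset.mem_union.1 heH' with h1 | h1
    · exact heL' (Finset.mem_sdiff.2 ⟨h1, h⟩)
    · exact h h1
  -- the configuration `G`
  set W : Finset Edg := U.filter (fun f => src f ∉ D.clu L ∧ tgt f ∉ D.clu L) with hW
  have heW : e ∉ W := by
    intro h
    rw [hW, Finset.mem_filter] at h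
    rcases hends with h1 | h1
    · exact h.2.1 (by rw [h1.1]; exact hk.1)
    · exact h.2.2 (by rw [h1.2]; exact hk.1)
  set G : Finset Edg := insert e (L ∪ W) with hG
  have hLG : L ⊆ G := Finset.subset_union_left.trans (Finset.subset_insert _ _)
  have hGH : G ⊆ H := by
    intro f hf
    rw [hG, Finset.mem_insert, Finset.mem_union] at hf
    rcases hf with rfl | hf | hf
    · exact heH'
    · exact hLH hf
    · exact Finset.mem_union_right _ (Finset.mem_filter.1 hf).1
  have hGe : G ⊆ D.edges := hGH.trans hHe
  have heG : e ∈ G := Finset.mem_insert_self _ _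
  -- the vertices of the piece are in the cluster of `G`
  have hreach : ∀ j, k + 1 ≤ j → j ≤ t → (D.walk H j).1 ∈ D.clu G := by
    intro j hj
    induction j, hj using Nat.le_induction with
    | base =>
      intro _
      exact Reach.trans (show Reach (D.cfg G) (0, 0) _ from clu_mono hLG hk.1)
        (Adj.reach ⟨e, Or.inl (by exact_mod_cast heG), hends⟩)
    | succ j hj ih =>
      intro hjt
      have ih' := ih (by omega)
      rw [H984N.walk_succ]
      by_cases hc : ae (D.walk H j) ∈ D.cfg H
      · rw [nxt_open hc]
        have g1 := hout j (by omega) (by omega)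
        have g2 := hout (j + 1) (by omega) (by omega)
        rw [H984N.walk_succ, nxt_open hc] at g2
        have g3 := p2_ends (D.walk H j)
        have g4 : src (ae (D.walk H j)) ∉ D.clu L ∧ tgt (ae (D.walk H j)) ∉ D.clu L := by
          rcases g3 with g3 | g3
          · rw [g3.1, g3.2]
            exact ⟨g1, g2⟩
          · rw [g3.1, g3.2]
            exact ⟨g2, g1⟩
        have g5 : ae (D.walk H j) ∉ D.wir := fun h => g4.1 (wir_clu hD L h).1
        have g6 : ae (D.walk H j) ∈ H := by
          rcases hc with h | h
          · exact_mod_cast h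
          · exact absurd h g5
        have g7 : ae (D.walk H j) ∈ G := by
          by_cases hu : ae (D.walk H j) ∈ U
          · exact Finset.mem_insert_of_mem (Finset.mem_union_right _ (Finset.mem_filter.2 ⟨hu, g4⟩))
          · apply hLG
            rcases Finset.mem_union.1 g6 with h1 | h1
            · exact Finset.mem_sdiff.2 ⟨h1, hu⟩
            · exact absurd h1 hu
        exact Reach.trans (show Reach (D.cfg G) (0, 0) _ from ih')
          (Adj.reach ⟨_, Or.inl (by exact_mod_cast g7), g3⟩)
      · rw [nxt_closed hc, p2_rt_fst]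
        exact ih'
  -- `G` visits the state
  have hface : face (D.walk H t) ∈ D.dclu G := dclu_mono hGH (walk_clu hD hHe ht).2
  obtain ⟨t', ht', hwt⟩ := H443B.visited hD hGe (hreach t (by omega) le_rfl) hface
  -- `G` without `e` does not
  have hflip : flip e G = L ∪ W := by
    unfold Pool.Agent.Zk36.TT.flip
    rw [if_pos heG, hG, Finset.erase_insert]
    rw [Finset.mem_union]
    rintro (h | h)
    · exact heL' h
    · exact heW h
  have hFe : flip e G ⊆ D.edges := flip_sub (hU heU) hGe
  have hnv : ¬ D.Vis (flip e G) (D.walk G t') := by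
    rintro ⟨m, hm, hm2⟩
    have h1 := (walk_clu hD hFe hm).1
    rw [hm2, hwt] at h1
    apply hout t hkt le_rfl
    refine clu_sub ?_ h1
    intro f hf
    rw [hflip, Finset.mem_union] at hf
    rcases hf with hf | hf
    · exact Or.inl hf
    · exact Or.inr (Finset.mem_filter.1 hf).2
  obtain ⟨i, l, h1, h2, h3, h4⟩ := hE D G e t' hD hGe (hU heU) hew ht' hnv
  have hsm := hS G ⟨hLG, hGH⟩ e heU hew
  rw [← hwt]
  rcases Nat.lt_or_ge t' l with h5 | h5
  · by_contra hc
    exact hsm ⟨i, t', l, h1, h5, h3, h4, by omega⟩
  · have h6 : t' = l := le_antisymm h2 h5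
    rw [h6]
    have := at_near h4
    omega

end Pool.Agent.Zk67.NS.CLH
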