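import Pool.Agent.Zk47.NS.EXI

/-! Four arms around a pivotal edge (modules LOC, PIV1, PIV4). -/

set_option autoImplicit false

namespace Pool.Agent.Zk67.NS

open H974 Finset H342P H984P H984N H12S H389NS Pool.Agent.Zk36.TT Pool.Agent.W92.DP
open Pool.Agent.Zk72.NS

theorem sd_self (v : Vtx) : sd v v = 0 := by simp [sd]

theorem sd_src_tgt (g : Edg) : sd (src g) (tgt g) ≤ 1 := by
  obtain ⟨x, y, _ | _⟩ := g <;> simp [sd]

theorem g_mem_blk (g : Edg) : g ∈ blk (src g) 1 := by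
  obtain ⟨x, y, _ | _⟩ := g
  · unfold blk
    rw [mem_RE_false]
    simp
  · unfold blk
    rw [mem_RE_true]
    simp

theorem ann_sub (G : Set Edg) (g : Edg) (m : ℕ) :
    G ∩ ↑(blk (src g) m \ blk (src g) 1) ⊆ G \ {g} := by
  rintro e ⟨he, hb⟩
  refine ⟨he, ?_⟩
  rintro rfl
  rw [Finset.mem_coe, Finset.mem_sdiff] at hb
  exact hb.2 (g_mem_blk _)

theorem t_LOC : S_LOC := by
  intro G g p q m hm hno hp hq hpm hqm
  obtain ⟨u, hu, w, hw, h1, h2, -⟩ := Pool.Agent.Zk47.NS.t_EXI (src g) 1 m (G \ {g}) (src g) p hm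
    (by rw [sd_self]; norm_num) hpm hp
  obtain ⟨u', hu', w', hw', h1', h2', -⟩ := Pool.Agent.Zk47.NS.t_EXI (src g) 1 m (G \ {g}) (tgt g) q
    hm (by exact_mod_cast sd_src_tgt g) hqm hq
  have hsub : (G \ {g}) ∩ ↑(blk (src g) m \ blk (src g) 1) ⊆ G ∩ ↑(blk (src g) m \ blk (src g) 1) :=
    fun e he => ⟨he.1.1, he.2⟩
  refine ⟨u, hu, u', hu', ⟨w, hw, h1.mono hsub⟩, ⟨w', hw', h1'.mono hsub⟩, fun h => hno ?_⟩
  exact h2.trans ((h.mono (ann_sub G g m)).trans h2'.symm)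

/-- a path either avoids the edge `g` or passes through it -/
theorem through (G : Set Edg) (g : Edg) {p q : Vtx} (h : Reach G p q) :
    Reach (G \ {g}) p q ∨ (Reach (G \ {g}) p (src g) ∧ Reach (G \ {g}) (tgt g) q) ∨
      (Reach (G \ {g}) p (tgt g) ∧ Reach (G \ {g}) (src g) q) := by
  induction h with
  | refl => exact Or.inl (Reach.refl _ _)
  | @tail b c _ hs ih =>
    obtain ⟨e, he, hbc⟩ := hs
    by_cases heg : e = g
    · subst heg
      rcases hbc with ⟨hb, hc⟩ | ⟨hc, hb⟩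
      · -- from src to tgt
        subst hb hc
        rcases ih with ih | ⟨i1, i2⟩ | ⟨i1, i2⟩
        · exact Or.inr (Or.inl ⟨ih, Reach.refl _ _⟩)
        · exact Or.inr (Or.inl ⟨i1, Reach.refl _ _⟩)
        · exact Or.inl i1
      · subst hb hc
        rcases ih with ih | ⟨i1, i2⟩ | ⟨i1, i2⟩
        · exact Or.inr (Or.inr ⟨ih, Reach.refl _ _⟩)
        · exact Or.inl i1
        · exact Or.inr (Or.inr ⟨i1, Reach.refl _ _⟩)
    · have hst : Reach (G \ {g}) b c := Adj.reach ⟨e, ⟨he, heg⟩, hbc⟩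
      rcases ih with ih | ⟨i1, i2⟩ | ⟨i1, i2⟩
      · exact Or.inl (ih.trans hst)
      · exact Or.inr (Or.inl ⟨i1, i2.trans hst⟩)
      · exact Or.inr (Or.inr ⟨i1, i2.trans hst⟩)

theorem t_PIV1 : S_PIV1 := by
  intro G g p q m hm hpq hno hpm hqm
  rcases through G g hpq with h | ⟨h1, h2⟩ | ⟨h1, h2⟩
  · exact absurd h hno
  · refine t_LOC G g p q m hm (fun h => hno (h1.trans (h.trans h2))) h1.symm h2 hpm hqm
  · refine t_LOC G g q p m hm (fun h => hno (h1.trans (h.symm.trans h2))) h2 h1.symm hqm hpm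

theorem sd_far_in {v c u : Vtx} {d m : ℤ} (hu : |u.1 - v.1| ≤ d ∧ |u.2 - v.2| ≤ d)
    (h : d + m < sd v c) : m ≤ sd c u := by
  unfold sd at *
  rcases lt_max_iff.1 h with h1 | h1
  · have h2 := hu.1
    have h3 : |v.1 - c.1| ≤ |u.1 - v.1| + |c.1 - u.1| := by
      rw [abs_sub_comm v.1 c.1, abs_sub_comm u.1 v.1, abs_sub_comm c.1 u.1, add_comm]
      rw [abs_sub_comm c.1 v.1, abs_sub_comm u.1 c.1]
      have := abs_sub_le v.1 u.1 c.1
      rw [abs_sub_comm u.1 c.1] at this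
      linarith
    have h4 : m ≤ |c.1 - u.1| := by linarith
    exact h4.trans (le_max_left _ _)
  · have h2 := hu.2
    have h3 : |v.2 - c.2| ≤ |u.2 - v.2| + |c.2 - u.2| := by
      have := abs_sub_le v.2 u.2 c.2
      rw [abs_sub_comm u.2 c.2, abs_sub_comm v.2 u.2] at this
      exact this
    have h4 : m ≤ |c.2 - u.2| := by linarith
    exact h4.trans (le_max_right _ _)

theorem sd_far_out {v c w : Vtx} {k m : ℤ} (hw : |w.1 - v.1| = k ∨ |w.2 - v.2| = k)
    (h : sd v c + m < k) : m ≤ sd c w := by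
  unfold sd at *
  have e1 : |v.1 - c.1| ≤ max |v.1 - c.1| |v.2 - c.2| := le_max_left _ _
  have e2 : |v.2 - c.2| ≤ max |v.1 - c.1| |v.2 - c.2| := le_max_right _ _
  rcases hw with h1 | h1
  · have := abs_sub_le w.1 c.1 v.1
    rw [abs_sub_comm w.1 c.1, abs_sub_comm c.1 v.1] at this
    exact le_trans (by linarith) (le_max_left _ _)
  · have := abs_sub_le w.2 c.2 v.2
    rw [abs_sub_comm w.2 c.2, abs_sub_comm c.2 v.2] at this
    exact le_trans (by linarith) (le_max_right _ _)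

theorem blk_sub_ann {v : Vtx} {g : Edg} {d k m : ℕ} (h1 : (d : ℤ) + m < sd v (src g))
    (h2 : sd v (src g) + m < k) : blk (src g) m ⊆ blk v k \ blk v d := by
  intro e he
  rw [Finset.mem_sdiff]
  unfold sd at h1 h2
  have e1 : |v.1 - (src g).1| ≤ max |v.1 - (src g).1| |v.2 - (src g).2| := le_max_left _ _
  have e2 : |v.2 - (src g).2| ≤ max |v.1 - (src g).1| |v.2 - (src g).2| := le_max_right _ _
  have e3 := abs_le.1 (le_trans e1 (by linarith : _ ≤ (k : ℤ) - m))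
  have e4 := abs_le.1 (le_trans e2 (by linarith : _ ≤ (k : ℤ) - m))
  generalize hc : src g = c at *
  obtain ⟨c1, c2⟩ := c
  obtain ⟨v1, v2⟩ := v
  simp only at e3 e4 h1 h2
  have h3 : (d : ℤ) + m < v1 - c1 ∨ (d : ℤ) + m < c1 - v1 ∨ (d : ℤ) + m < v2 - c2 ∨
      (d : ℤ) + m < c2 - v2 := by
    rcases lt_max_iff.1 h1 with h | h
    · rcases lt_abs.1 h with h | h
      · exact Or.inl h
      · exact Or.inr (Or.inl (by linarith))
    · rcases lt_abs.1 h with h | h
      · exact Or.inr (Or.inr (Or.inl h))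
      · exact Or.inr (Or.inr (Or.inr (by linarith)))
  obtain ⟨x, y, _ | _⟩ := e
  · unfold blk at he ⊢
    simp only [mem_RE_false] at he ⊢
    omega
  · unfold blk at he ⊢
    simp only [mem_RE_true] at he ⊢
    omega

theorem t_PIV4 : S_PIV4 := by
  intro G G' g v d k m hm hoff hA hA' h1 h2
  set A : Set Edg := ↑(blk v k \ blk v d) with hAdef
  have hloc : ∀ H : Set Edg, A4a (src g) 1 m (H ∩ A) → A4a (src g) 1 m H := by
    intro H hH
    refine (Pool.Agent.W571.DPad.A4a_congr ?_).1 hH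
    ext e
    constructor
    · rintro ⟨⟨a, -⟩, b⟩
      exact ⟨a, b⟩
    · rintro ⟨a, b⟩
      exact ⟨⟨a, Finset.mem_coe.2 (blk_sub_ann h1 h2 (Finset.mem_coe.1 b))⟩, b⟩
  apply hloc
  have hne : ∃ h, ¬ (h ∈ G ↔ h ∈ G') := by
    by_contra hcon
    push Not at hcon
    have : G = G' := Set.ext hcon
    exact hA' (this ▸ hA)
  obtain ⟨u, hu, u', hu', ⟨w, hw, hr⟩, ⟨w', hw', hr'⟩, hn⟩ := hA
  have far_in : ∀ {x : Vtx}, x ∈ bdB v d → (m : ℤ) ≤ sd (src g) x := fun hx =>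
    sd_far_in ⟨hx.1, hx.2.1⟩ h1
  have far_out : ∀ {x : Vtx}, x ∈ bdB v k → (m : ℤ) ≤ sd (src g) x := fun hx =>
    sd_far_out hx.2.2 h2
  by_cases hg : g ∈ G
  · have hg' : g ∉ G' := by
      intro hg'
      obtain ⟨h, hh⟩ := hne
      by_cases e : h = g
      · subst e; exact hh ⟨fun _ => hg', fun _ => hg⟩
      · exact hh (hoff h e)
    have hsub : G' ⊆ G := by
      intro e he
      by_cases h : e = g
      · rw [h]; exact hg
      · exact (hoff e h).2 he
    have hsub2 : (G ∩ A) \ {g} ⊆ G' ∩ A := by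
      rintro e ⟨⟨a, b⟩, c⟩
      exact ⟨(hoff e c).1 a, b⟩
    have key : ¬ Reach ((G ∩ A) \ {g}) u w ∨ ¬ Reach ((G ∩ A) \ {g}) u' w' := by
      by_contra hcon
      push Not at hcon
      apply hA'
      refine ⟨u, hu, u', hu', ⟨w, hw, hcon.1.mono hsub2⟩, ⟨w', hw', hcon.2.mono hsub2⟩, fun h => hn ?_⟩
      have hsA : G' ∩ A ⊆ G ∩ A := fun e he => ⟨hsub he.1, he.2⟩
      exact h.mono hsA
    rcases key with h | h
    · exact t_PIV1 (G ∩ A) g u w m hm hr h (far_in hu) (far_out hw)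
    · exact t_PIV1 (G ∩ A) g u' w' m hm hr' h (far_in hu') (far_out hw')
  · have hsub : G ⊆ G' := by
      intro e he
      by_cases h : e = g
      · rw [h] at he; exact absurd he hg
      · exact (hoff e h).1 he
    have hsub2 : (G' ∩ A) \ {g} ⊆ G ∩ A := by
      rintro e ⟨⟨a, b⟩, c⟩
      exact ⟨(hoff e c).2 a, b⟩
    have hsub3 : G ∩ A ⊆ (G' ∩ A) \ {g} := by
      rintro e ⟨a, b⟩
      refine ⟨⟨hsub a, b⟩, ?_⟩
      rintro rfl
      exact hg a
    have heq : (G' ∩ A) \ {g} = G ∩ A := Set.Subset.antisymm hsub2 hsub3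
    have hcon : Reach (G' ∩ A) u u' := by
      by_contra hcon
      apply hA'
      have hsA : G ∩ A ⊆ G' ∩ A := fun e he => ⟨hsub he.1, he.2⟩
      exact ⟨u, hu, u', hu', ⟨w, hw, hr.mono hsA⟩, ⟨w', hw', hr'.mono hsA⟩, hcon⟩
    have hgA : (G ∩ A) \ {g} = G ∩ A := by
      ext e
      constructor
      · exact fun he => he.1
      · intro he
        refine ⟨he, ?_⟩
        rintro rfl
        exact hg he.1
    rcases through (G' ∩ A) g hcon with h | ⟨i1, i2⟩ | ⟨i1, i2⟩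
    · rw [heq] at h
      exact absurd h hn
    · rw [heq] at i1 i2
      refine t_LOC (G ∩ A) g u u' m hm ?_ ?_ ?_ (far_in hu) (far_in hu')
      · rw [hgA]
        intro h
        exact hn (i1.trans (h.trans i2))
      · rw [hgA]; exact i1.symm
      · rw [hgA]; exact i2
    · rw [heq] at i1 i2
      refine t_LOC (G ∩ A) g u' u m hm ?_ ?_ ?_ (far_in hu') (far_in hu)
      · rw [hgA]
        intro h
        exact hn (i1.trans (h.symm.trans i2))
      · rw [hgA]; exact i2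
      · rw [hgA]; exact i1.symm

end Pool.Agent.Zk67.NS
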